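import Pool.Agent.Lib.MP_7f581e_K.V.LieR
import Pool.Agent.Lib.MP_7f581e_Z.Types.AllLie

/-!
# C33, Part V: step Lie for the classical groups, for regular realizations
-/

set_option autoImplicit false

namespace MP7K

open MP7Z Matrix MP7fY MP7fW MP7fH MP7fE

open SUJ in
/-- **Step Lie for `SU_N(F)`** from the Lang groups. -/
theorem reg_SU (hL3 : L3R) {p : ℕ} [Fact p.Prime] (hS : SolvRz p) {m N : ℕ} {F : Type}
    [Field F] [CharP F p] [Finite F] [Algebra (ZMod p) F] (hm : 0 < m)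
    (hcard : Nat.card F = p ^ (2 * m)) (h3 : 3 ≤ N) (hq : N = 3 → 2 < p ^ m)
    [IsSimpleGroup (PSG (sF p m F) (Jm N F))]
    (hG : LangOf p (incJ (sF p m F) N)
      (AJ (s := sF p m F) (N := N) (sF_comm (p := p) (m := m))).subtype
      (DJ (s := sF p m F) (N := N) (sF_comm (p := p) (m := m)))) :
    NStep p (fun S [Group S] => Nonempty (S ≃* PSG (sF p m F) (Jm N F))) :=
  reg_of_type hL3 hS (typeD_SU (N := N) (sF p m F) (sF_sF (p := p) (m := m) hcard)
    (sF_ne' hm hcard) sF_comm h3 fun h => exists_t hm hcard (hq h)) hG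

open SUJ in
/-- The same for the form with the identity matrix. -/
theorem reg_SU_one (hL3 : L3R) {p : ℕ} [Fact p.Prime] (hS : SolvRz p) {m N : ℕ} {F : Type}
    [Field F] [CharP F p] [Finite F] [Algebra (ZMod p) F] (hm : 0 < m)
    (hcard : Nat.card F = p ^ (2 * m)) (h3 : 3 ≤ N) (hq : N = 3 → 2 < p ^ m)
    [IsSimpleGroup (PSG (sF p m F) (1 : Matrix (Fin N) (Fin N) F))]
    (hG : LangOf p (incJ (sF p m F) N)
      (AJ (s := sF p m F) (N := N) (sF_comm (p := p) (m := m))).subtype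
      (DJ (s := sF p m F) (N := N) (sF_comm (p := p) (m := m)))) :
    NStep p (fun S [Group S] =>
      Nonempty (S ≃* PSG (sF p m F) (1 : Matrix (Fin N) (Fin N) F))) := by
  obtain ⟨P, hP⟩ := exists_PJ (F := F) hm hcard N
  have : IsSimpleGroup (PSG (sF p m F) (Jm N F)) := (ptr hP).isSimpleGroup
  have h1 := reg_SU hL3 hS hm hcard h3 hq hG
  intro G _ _ hG0 E _ _ f hf S _ _ κ _ hSS hθ
  obtain ⟨e⟩ := hSS
  exact h1 G hG0 E f hf S κ ⟨e.trans (ptr hP).symm⟩ hθ

/-- **Step Lie for the classical groups.** -/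
theorem reg_classical {p : ℕ} [Fact p.Prime] (hL3 : L3R) (hS : SolvRz p)
    (hA : LangAll p) : NStep p (fun S [Group S] => IsClassical p S) := by
  intro G _ _ hG0 E _ _ f hf S _ _ κ _ hSS hθ
  obtain ⟨hsim, H, _, hH, ⟨eS⟩⟩ := hSS
  have hS' : IsSimpleGroup (H ⧸ Subgroup.center H) := MulEquiv.isSimpleGroup eS.symm
  obtain ⟨F, _, n, m, ⟨hF, hn, hq, ⟨e⟩⟩ | ⟨hF, hn, hp, ⟨e⟩⟩ |
    ⟨hF, hm, hn, hq, σ, hσ, ⟨e⟩⟩⟩ := hH
  · have := finite_of_card hF
    have := charP_of_card hF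
    let _ : Algebra (ZMod p) F := ZMod.algebra F p
    rcases Nat.lt_or_ge 2 n with h3 | h3
    · exact reg_of_type hL3 hS (typeD_SLn (F := F) h3) (hA.sln F n h3) G hG0 E f hf S κ
        ⟨eS.trans (centerQuot e)⟩ hθ
    · obtain rfl : n = 2 := le_antisymm h3 hn
      exact reg_of_type hL3 hS (typeD_SL2 (F := F) (by rw [hF]; exact hq rfl)) (hA.sl2 F)
        G hG0 E f hf S κ ⟨eS.trans (centerQuot e)⟩ hθ
  · have := finite_of_card hF
    have := charP_of_card hF
    let _ : Algebra (ZMod p) F := ZMod.algebra F p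
    have e' : H ≃* MP7fP.Sp n F := e
    have h1 : IsSimpleGroup (MP7fP.PSp n F) := MulEquiv.isSimpleGroup (centerQuot e').symm
    exact reg_of_type hL3 hS (typeD_Sp (F := F) (p := p) hn (two_zero hn hp)) (hA.sp F n hn)
      G hG0 E f hf S κ ⟨eS.trans (centerQuot e')⟩ hθ
  · have := finite_of_card hF
    have := charP_of_card hF
    let _ : Algebra (ZMod p) F := ZMod.algebra F p
    obtain rfl : σ = MP7fY.sF p m F := RingHom.ext fun x => (hσ x).trans
      (MP7fY.sF_apply x).symm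
    have e' : H ≃* MP7fY.SG (MP7fY.sF p m F) (1 : Matrix (Fin n) (Fin n) F) := e.trans suEquiv
    have h1 : IsSimpleGroup (MP7fY.PSG (MP7fY.sF p m F) (1 : Matrix (Fin n) (Fin n) F)) :=
      MulEquiv.isSimpleGroup (centerQuot e').symm
    exact reg_SU_one hL3 hS hm hF hn hq (hA.su F m n hm hF hn) G hG0 E f hf S κ
      ⟨eS.trans (centerQuot e')⟩ hθ

/-- **Step Lie for the classical groups**, unconditionally. -/
theorem nStep_classical {p : ℕ} [Fact p.Prime] (hS : SolvRz p) :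
    NStep p (fun S [Group S] => IsClassical p S) :=
  reg_classical lie_l3R hS (langAll p)

end MP7K
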