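import Pool.Agent.Lib.MP_7f581e_K.V.LieR
import Pool.Agent.Lib.MP_7f581e_Z.Ort.Main

/-!
# C33, Part V: step Lie for the orthogonal groups, for regular realizations
-/

set_option autoImplicit false

namespace MP7K

open MP7Z MP7Z.Ort TensorProduct MP7fS Matrix

/-- **Step Lie for the orthogonal groups.** -/
theorem reg_ort {p : ℕ} [Fact p.Prime] (hL3 : L3R) (hS : SolvRz p) (hxe : HxeStmt)
    (tyo : TyOStmt) (aut : OAutX) (lang : OLangStmt) (oms : OmSStmt) (cle : ClEStmt)
    (clo : ClOStmt) (an8 : An8Stmt) : NStep p (fun S [Group S] => IsOrthogonal p S) := by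
  intro G _ _ hG0 E _ _ f hf S _ _ κ _ hSS hθ
  obtain ⟨F, _, _, _, s, D, h3, h8, hsim, he⟩ := exists_dat oms cle clo an8 hSS
  have hex := hxe p F (s + 2) D
  have hT := tyo p F s D hex hsim (aut p F (s + 2) D hex h3 h8 hsim)
  exact reg_of_type hL3 hS hT (lang p F (s + 1) D) G hG0 E f hf S κ he hθ

/-- **Step Lie for the orthogonal groups**, unconditionally. -/
theorem nStep_orthogonal {p : ℕ} [Fact p.Prime] (hS : SolvRz p) :
    NStep p (fun S [Group S] => IsOrthogonal p S) :=
  reg_ort lie_l3R hS aHxe aTyO aOAut aOLangX aOmS aClE aClO tAn8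

end MP7K
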