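import Pool.Agent.Lib.MP_7f581e_K.V.Conv
import Pool.Agent.Lib.MP_7f581e_K.V.ClsR
import Pool.Agent.Lib.MP_7f581e_K.V.OrtR
import Pool.Agent.Lib.MP_7f581e_K.V.LieTR
import Pool.Agent.Lib.MP_7f581e_Z.Top.Per

/-!
# C33, Part V: the closure theorem with all groups of Lie type in characteristic `p`
-/

set_option autoImplicit false

universe u

namespace MP7K

open MP7Z MP7fR MP7fC MP7fE

/-- The step for kernels which are powers of a group in the class `𝒮`. -/
def RStep (p : ℕ) [Fact p.Prime] (𝒮 : GroupClass) : Prop :=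
  ∀ (E G : Type) [Group E] [Finite E] [Group G] [Finite G] (f : E →* G), Function.Surjective f →
  ∀ (S : Type) [Group S] [Finite S] (κ : Type) [Finite κ], 𝒮 S → Nonempty (f.ker ≃* (κ → S)) →
    OccursRegularly G (ZMod p) → OccursRegularly E (ZMod p)

theorem NStep.rStep {p : ℕ} [Fact p.Prime] {𝒮 : GroupClass} (h : NStep p 𝒮) : RStep p 𝒮 := by
  intro E G _ _ _ _ f hf S _ _ κ _ hS hk hG
  exact hasRz_iff.1 (h G (hasRz_iff.2 hG) E f hf S κ hS hk)

/-- The closure theorem gives the step for solvable kernels. -/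
theorem solvRz_of (hS : StartW) (hW : WeakW) (p : ℕ) [Fact p.Prime] : SolvRz p := by
  intro G _ _ hG E _ _ f hf hsolv
  have hsim : ∀ (S : Type) [Group S], IsCloseFactor p S → IsSimpleGroup S := by
    intro S _ h
    rcases h with h | h
    · have : Fact (Nat.card S).Prime := ⟨h⟩
      exact isSimpleGroup_of_prime_card rfl
    · exact h.isSimpleGroup
  have hiso : ∀ (S T : Type) [Group S] [Group T], (S ≃* T) → IsCloseFactor p S →
      IsCloseFactor p T := by
    intro S T _ _ e h
    rcases h with h | h
    · left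
      rw [← Nat.card_congr e.toEquiv]
      exact h
    · exact Or.inr (IsBottomFactor.congr e h)
  have h1 : HasFactors (IsCloseFactor p) f.ker :=
    Top.Per_solv (𝒮 := fun S [Group S] => IsCloseFactor p S) hiso hsim
      (fun S _ h => Or.inl h) _ f.ker rfl
  rw [hasRz_iff] at hG ⊢
  exact closure_of hS hW p E f.ker h1
    (occReg_congr (QuotientGroup.quotientKerEquivOfSurjective f hf).symm hG)

/-- Cyclic of prime order, a factor at the bottom, a simple group of Lie type in characteristic
`p`, or in the class `𝒢`. -/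
def IsFac (p : ℕ) [Fact p.Prime] (𝒢 : GroupClass) (S : Type) [Group S] : Prop :=
  (Nat.card S).Prime ∨ IsBottomFactor p S ∨ IsClassical p S ∨ IsOrthogonal p S ∨
    OfLieType p S ∨ 𝒢 S

/-- **The closure theorem**, from Parts II and III and the step for the class `𝒢`. -/
theorem closure_fac (hS : StartW) (hW : WeakW) (p : ℕ) [Fact p.Prime] (𝒢 : GroupClass)
    (hg1 : ∀ (S : Type) [Group S], 𝒢 S → IsSimpleGroup S)
    (hg2 : ∀ (S T : Type) [Group S] [Group T], (S ≃* T) → 𝒢 S → 𝒢 T) (hg3 : RStep p 𝒢) :
    ∀ (G : Type) [Group G] [Finite G] (N : Subgroup G) [N.Normal],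
      HasFactors (fun S [Group S] => IsFac p 𝒢 S) N → OccursRegularly (G ⧸ N) (ZMod p) →
      OccursRegularly G (ZMod p) := by
  have hsim : ∀ (S : Type) [Group S], IsFac p 𝒢 S → IsSimpleGroup S := by
    intro S _ h
    rcases h with h | h | h | h | h | h
    · have : Fact (Nat.card S).Prime := ⟨h⟩
      exact isSimpleGroup_of_prime_card rfl
    · exact h.isSimpleGroup
    · exact h.1
    · exact h.1
    · exact h.1
    · exact hg1 S h
  have hiso : ∀ (S T : Type) [Group S] [Group T], (S ≃* T) → IsFac p 𝒢 S → IsFac p 𝒢 T := by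
    intro S T _ _ e h
    rcases h with h | h | h | h | h | h
    · left
      rw [← Nat.card_congr e.toEquiv]
      exact h
    · exact Or.inr (Or.inl (IsBottomFactor.congr e h))
    · exact Or.inr (Or.inr (Or.inl (h.congr e)))
    · exact Or.inr (Or.inr (Or.inr (Or.inl (h.congr e))))
    · exact Or.inr (Or.inr (Or.inr (Or.inr (Or.inl (h.congr e)))))
    · exact Or.inr (Or.inr (Or.inr (Or.inr (Or.inr (hg2 S T e h)))))
  have hclose : ∀ (E : Type) [Group E] [Finite E] (N : Subgroup E) [N.Normal] (S : Type)
      [Group S] (k : ℕ), IsCloseFactor p S → (N ≃* (Fin k → S)) →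
      OccursRegularly (E ⧸ N) (ZMod p) → OccursRegularly E (ZMod p) := by
    intro E _ _ N _ S _ k hSc φ hE
    have hsim' : ∀ (S : Type) [Group S], IsCloseFactor p S → IsSimpleGroup S := by
      intro S _ h
      rcases h with h | h
      · have : Fact (Nat.card S).Prime := ⟨h⟩
        exact isSimpleGroup_of_prime_card rfl
      · exact h.isSimpleGroup
    have hiso' : ∀ (S T : Type) [Group S] [Group T], (S ≃* T) → IsCloseFactor p S →
        IsCloseFactor p T := by
      intro S T _ _ e h
      rcases h with h | h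
      · left
        rw [← Nat.card_congr e.toEquiv]
        exact h
      · exact Or.inr (IsBottomFactor.congr e h)
    refine closure_of hS hW p E N ?_ hE
    exact (HasFactors.pow hiso' hsim' (hasFactors_of_mem hiso' hSc) k).congr hiso' hsim' φ.symm
  have hrs : ∀ (𝒮 : GroupClass), RStep p 𝒮 → ∀ (E : Type) [Group E] [Finite E] (N : Subgroup E)
      [N.Normal] (S : Type) [Group S] (k : ℕ), 𝒮 S → (N ≃* (Fin k → S)) →
      OccursRegularly (E ⧸ N) (ZMod p) → OccursRegularly E (ZMod p) := by
    intro 𝒮 h𝒮 E _ _ N _ S _ k hSc φ hE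
    rcases Nat.eq_zero_or_pos k with hk | hk
    · subst hk
      have h1 : Subsingleton N := ⟨fun a b => φ.injective (Subsingleton.elim _ _)⟩
      have h2 : N = ⊥ := Subgroup.eq_bot_of_subsingleton N
      subst h2
      exact occReg_congr QuotientGroup.quotientBot hE
    · have h1 : Finite (Fin k → S) := Finite.of_equiv N φ.toEquiv
      have h2 : Finite S := Finite.of_injective (fun s : S => fun _ : Fin k => s)
        fun a b h => congrFun h ⟨0, hk⟩
      exact h𝒮 E (E ⧸ N) (QuotientGroup.mk' N) (QuotientGroup.mk'_surjective N) S (Fin k) hSc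
        ⟨(MulEquiv.subgroupCongr (QuotientGroup.ker_mk' N)).trans φ⟩ hE
  have hSR : SolvRz p := solvRz_of hS hW p
  refine induct_factors hiso hsim (P := fun E _ => OccursRegularly E (ZMod p))
    (fun E F _ _ e h => occReg_congr e h) ?_
  intro E _ _ N _ S _ k hSc φ hE
  rcases hSc with h | h | h | h | h | h
  · exact hclose E N S k (Or.inl h) φ hE
  · exact hclose E N S k (Or.inr h) φ hE
  · exact hrs _ (nStep_classical hSR).rStep E N S k h φ hE
  · exact hrs _ (nStep_orthogonal hSR).rStep E N S k h φ hE
  · exact hrs _ (nStep_lieType hSR).rStep E N S k h φ hE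
  · exact hrs 𝒢 hg3 E N S k h φ hE

/-- Regular realizations over `𝔽_p` give all others. -/
theorem all_of_regular {p : ℕ} [Fact p.Prime] {G : Type} [Group G] [Finite G]
    (h : OccursRegularly G (ZMod p)) :
    Occurs G (RatFunc (ZMod p)) ∧ (∀ (K : Type u) [Field K] [CharP K p], OccursRegularly G K) ∧
      ∀ (K : Type u) [Field K] [CharP K p], IsHilbertian K → Occurs G K := by
  refine ⟨h.occurs, fun K _ _ => ?_, fun K _ _ hK => ?_⟩
  · let _ : Algebra (ZMod p) K := ZMod.algebra K p
    exact occursRegularly_baseChange h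
  · let _ : Algebra (ZMod p) K := ZMod.algebra K p
    exact occurs_of_isHilbertian hK (occursRegularly_baseChange h).occurs

end MP7K
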