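import Pool.Agent.Lib.MP_7f581e_K.DefsG
import Pool.Agent.Lib.MP_7f581e_ntE.Factor
import Pool.Agent.Lib.MP_7f581e_Z.LieG.Cls
import Pool.Agent.Lib.MP_7f581e_Z.Ort.ODefs

/-!
# C33: the composition factors of the closure theorem
-/

set_option autoImplicit false

namespace MP7K

/-- The groups of prime order, the alternating groups `A_n` (`n ≥ 5`, and `n = 6` only if `p = 2`),
the simple groups of Lie type in characteristic `p` (`IsClassical`: linear, symplectic and unitary
groups; `IsOrthogonal`; `OfLieType`: simple quotients of `{g ∈ H(𝔽_p) : Φ(g) = g}`), and the finite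
nonabelian simple groups with a GA realisation over `𝔽_p(t)`. -/
def IsKernelFactor (p : ℕ) [Fact p.Prime] (S : Type) [Group S] : Prop :=
  (Nat.card S).Prime ∨ MP7fE.IsAlt p S ∨ MP7fE.IsClassical p S ∨ MP7Z.IsOrthogonal p S ∨
    MP7Z.OfLieType p S ∨ HasGA p S

end MP7K
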