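import Pool.Agent.Lib.MP_7f581e_K.V.Fin
import Pool.Agent.Lib.MP_7f581e_K.V.Cls

/-!
# C33: the final form, from the steps
-/

set_option autoImplicit false

universe u

namespace MP7K

open MP7Z MP7fR MP7fC MP7fE

/-- Enlarging the class. -/
theorem hasFactors_mono {𝒮 𝒯 : GroupClass} (h : ∀ (S : Type) [Group S], 𝒮 S → 𝒯 S) {G : Type}
    [Group G] (hG : HasFactors 𝒮 G) : HasFactors 𝒯 G := by
  induction hG with
  | triv G => exact .triv G
  | ext G N _ hS ih => exact .ext G N ih (h _ hS)

theorem HasGA.isSimpleGroup {p : ℕ} [Fact p.Prime] {S : Type} [Group S] (h : HasGA p S) :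
    IsSimpleGroup S := h.2.1

theorem HasGA.congr {p : ℕ} [Fact p.Prime] {S T : Type} [Group S] [Group T] (e : S ≃* T)
    (h : HasGA p S) : HasGA p T := by
  obtain ⟨h1, h2, ⟨a, b, hab⟩, L, _, _, c, h3, h4⟩ := h
  refine ⟨Finite.of_equiv S e.toEquiv, MulEquiv.isSimpleGroup e.symm, ⟨e a, e b, fun h => hab ?_⟩,
    L, inferInstance, inferInstance, c.comp (MulAut.congr e.symm).toMonoidHom,
    h3.comp (MulAut.congr e.symm).injective, fun y => ?_⟩
  · apply e.injective
    rw [map_mul, map_mul, h]
  · rw [← h4 y]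
    have key : ∀ s : S, (MulAut.congr e.symm).toMonoidHom (MulAut.conj (e s)) =
        MulAut.conj s := by
      intro s
      ext x
      change e.symm (e s * e x * (e s)⁻¹) = s * x * s⁻¹
      rw [map_mul, map_mul, map_inv, e.symm_apply_apply, e.symm_apply_apply]
    constructor
    · intro h s
      have h5 := h (e s)
      rw [MonoidHom.comp_apply, key] at h5
      exact h5
    · intro h t
      obtain ⟨s, rfl⟩ := e.surjective t
      rw [MonoidHom.comp_apply, key]
      exact h s

/-- **The closure theorem**, from Parts II and III and the step for GA realisations. -/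
theorem closure_final (hS : StartW) (hW : WeakW) (p : ℕ) [Fact p.Prime]
    (hGA : RStep p (fun S [Group S] => HasGA p S)) (G : Type) [Group G] [Finite G]
    (N : Subgroup G) [N.Normal] (hN : HasFactors (fun S [Group S] => IsKernelFactor p S) N)
    (h : OccursRegularly (G ⧸ N) (ZMod p)) :
    Occurs G (RatFunc (ZMod p)) ∧ (∀ (K : Type u) [Field K] [CharP K p], OccursRegularly G K) ∧
      ∀ (K : Type u) [Field K] [CharP K p], IsHilbertian K → Occurs G K := by
  refine all_of_regular (closure_fac hS hW p (fun S [Group S] => HasGA p S)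
    (fun S _ h => h.isSimpleGroup) (fun S T _ _ e h => h.congr e) hGA G N ?_ h)
  refine hasFactors_mono (fun S _ hS => ?_) hN
  rcases hS with h | h | h | h | h | h
  · exact Or.inl h
  · exact Or.inr (Or.inl (Or.inl (Or.inr (Or.inl h))))
  · exact Or.inr (Or.inr (Or.inl h))
  · exact Or.inr (Or.inr (Or.inr (Or.inl h)))
  · exact Or.inr (Or.inr (Or.inr (Or.inr (Or.inl h))))
  · exact Or.inr (Or.inr (Or.inr (Or.inr (Or.inr h))))

end MP7K
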