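import Pool.Agent.Lib.MP_7f581e_K.V.Defs
import Pool.Agent.Lib.MP_7f581e_K.F.Close
import Pool.Agent.Lib.MP_7f581e_Z.Fin.Reg

/-!
# C33, Part V: the two notions of regular realization
-/

set_option autoImplicit false

namespace MP7K

open MP7Z MP7fR

section

variable {p : ℕ} [Fact p.Prime] {Ω : Type} [Field Ω] [Algebra (ZMod p) Ω] {x : Ω}

/-- **A regular realization in the homomorphism language is one over `𝔽_p(X)`.** -/
theorem Rz.occursRegularly {G : Type} [Group G] {ψ : Gx p x →* G} (hψ : Rz p x ψ) :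
    OccursRegularly G (ZMod p) := by
  have hst := hψ.stage
  have := hst.sepClosed
  let _ : Algebra (RatFunc (ZMod p)) Ω := (emb hst.transc).toAlgebra
  have hgal : IsGalois (RatFunc (ZMod p)) Ω := isGalois_emb hst
  have hX : algebraMap (RatFunc (ZMod p)) Ω RatFunc.X = x := emb_X hst.transc
  have hC : ∀ c : ZMod p, algebraMap (RatFunc (ZMod p)) Ω
      (algebraMap (ZMod p) (RatFunc (ZMod p)) c) = algebraMap (ZMod p) Ω c :=
    fun c => emb_C hst.transc c
  -- the two Galois groups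
  let toA : (Ω ≃ₐ[RatFunc (ZMod p)] Ω) → (Ω ≃ₐ[ZMod p] Ω) := fun γ =>
    AlgEquiv.ofRingEquiv (f := γ.toRingEquiv) (by
      intro c
      rw [← hC]
      exact γ.commutes _)
  let toG : (Ω ≃ₐ[RatFunc (ZMod p)] Ω) →* Gx p x :=
    { toFun := fun γ => ⟨toA γ, by
        rw [mem_Gx, ← hX]
        exact γ.commutes _⟩
      map_one' := Subtype.ext (AlgEquiv.ext fun _ => rfl)
      map_mul' := fun a b => Subtype.ext (AlgEquiv.ext fun _ => rfl) }
  have htoG : ∀ (γ : Ω ≃ₐ[RatFunc (ZMod p)] Ω) (z : Ω), (toG γ : Ω ≃ₐ[ZMod p] Ω) z = γ z :=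
    fun _ _ => rfl
  have hsurj : Function.Surjective toG := by
    intro γ
    let f : Ω ≃+* Ω := (γ : Ω ≃ₐ[ZMod p] Ω).toRingEquiv
    have hf : ∀ r : RatFunc (ZMod p), f (algebraMap (RatFunc (ZMod p)) Ω r) =
        algebraMap (RatFunc (ZMod p)) Ω r := by
      intro r
      have h1 : (f : Ω →+* Ω).comp (algebraMap (RatFunc (ZMod p)) Ω) =
          algebraMap (RatFunc (ZMod p)) Ω := by
        apply IsFractionRing.ringHom_ext (A := Polynomial (ZMod p))
        intro P
        have h2 : ((f : Ω →+* Ω).comp (algebraMap (RatFunc (ZMod p)) Ω)).comp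
            (algebraMap (Polynomial (ZMod p)) (RatFunc (ZMod p))) =
            (algebraMap (RatFunc (ZMod p)) Ω).comp
              (algebraMap (Polynomial (ZMod p)) (RatFunc (ZMod p))) := by
          apply Polynomial.ringHom_ext
          · intro c
            have h3 : algebraMap (Polynomial (ZMod p)) (RatFunc (ZMod p)) (Polynomial.C c) =
                algebraMap (ZMod p) (RatFunc (ZMod p)) c := rfl
            change (γ : Ω ≃ₐ[ZMod p] Ω) (algebraMap (RatFunc (ZMod p)) Ω
              (algebraMap (Polynomial (ZMod p)) (RatFunc (ZMod p)) (Polynomial.C c))) =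
              algebraMap (RatFunc (ZMod p)) Ω
                (algebraMap (Polynomial (ZMod p)) (RatFunc (ZMod p)) (Polynomial.C c))
            rw [h3, hC]
            exact (γ : Ω ≃ₐ[ZMod p] Ω).commutes c
          · change (γ : Ω ≃ₐ[ZMod p] Ω) (algebraMap (RatFunc (ZMod p)) Ω
              (algebraMap (Polynomial (ZMod p)) (RatFunc (ZMod p)) Polynomial.X)) =
              algebraMap (RatFunc (ZMod p)) Ω
                (algebraMap (Polynomial (ZMod p)) (RatFunc (ZMod p)) Polynomial.X)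
            rw [RatFunc.algebraMap_X, hX]
            exact mem_Gx.1 γ.2
        exact congrArg (fun g : Polynomial (ZMod p) →+* Ω => g P) h2
      exact congrArg (fun g : RatFunc (ZMod p) →+* Ω => g r) h1
    refine ⟨AlgEquiv.ofRingEquiv (f := f) hf, ?_⟩
    exact Subtype.ext (AlgEquiv.ext fun _ => rfl)
  obtain ⟨S, hS⟩ := hψ.fin
  have hψs : Function.Surjective ψ := by
    intro g
    obtain ⟨γ, -, h⟩ := hψ.reg g
    exact ⟨γ, h⟩
  obtain ⟨L, hfd, hLg, hiso, hfix⟩ := reg_gal (ψ.comp toG) (hψs.comp hsurj) S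
    (fun γ hγ => hS (toG γ) hγ)
  refine ⟨L, inferInstance, inferInstance, hfd, hLg, hiso, ?_⟩
  rintro y ⟨f, hf0, hf⟩
  -- `y` is a constant of `Ω`
  have halg : IsAlgebraic (ZMod p) (y : Ω) := by
    refine ⟨f, hf0, ?_⟩
    have h1 := congrArg (algebraMap L Ω) hf
    rw [map_zero, Polynomial.hom_eval₂] at h1
    have h2 : (algebraMap L Ω).comp ((algebraMap (RatFunc (ZMod p)) L).comp
        (algebraMap (ZMod p) (RatFunc (ZMod p)))) = algebraMap (ZMod p) Ω := RingHom.ext hC
    rw [h2] at h1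
    exact h1
  have hcst : (y : Ω) ∈ Cst p Ω := mem_algebraicClosure_iff.2 halg
  -- `y` is fixed by the Galois group
  have hall : ∀ γ : Ω ≃ₐ[RatFunc (ZMod p)] Ω, γ (y : Ω) = y := by
    intro γ
    obtain ⟨γ₁, h1, h2⟩ := hψ.reg (ψ (toG γ))
    obtain ⟨γ₂, rfl⟩ := hsurj γ₁
    have h3 : (ψ.comp toG) (γ₂⁻¹ * γ) = 1 := by
      rw [MonoidHom.comp_apply, map_mul, map_inv, map_mul, map_inv, h2, inv_mul_cancel]
    have h4 := hfix _ h3 y y.2
    have h5 : γ₂ (y : Ω) = y := h1 y hcst
    calc γ (y : Ω) = γ₂ ((γ₂⁻¹ * γ) (y : Ω)) := by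
          rw [AlgEquiv.mul_apply, ← AlgEquiv.mul_apply γ₂ γ₂⁻¹, mul_inv_cancel, AlgEquiv.one_apply]
      _ = y := by rw [h4, h5]
  obtain ⟨r, hr⟩ := (InfiniteGalois.mem_range_algebraMap_iff_fixed (y : Ω)).2 hall
  -- `r` is algebraic over the prime field
  have hr2 : ∃ c, r = RatFunc.C c := by
    by_contra hcon
    have htr : Transcendental (ZMod p) r := RatFunc.transcendental_of_ne_C _ hcon
    apply htr
    refine ⟨f, hf0, ?_⟩
    apply (algebraMap (RatFunc (ZMod p)) Ω).injective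
    have h1 := congrArg (algebraMap L Ω) hf
    rw [map_zero, Polynomial.hom_eval₂] at h1
    rw [map_zero, Polynomial.aeval_def, Polynomial.hom_eval₂, hr]
    exact h1
  obtain ⟨c, rfl⟩ := hr2
  refine ⟨c, ?_⟩
  apply (algebraMap L Ω).injective
  exact hr

end

theorem hasRz_iff {p : ℕ} [Fact p.Prime] {G : Type} [Group G] :
    HasRz p G ↔ OccursRegularly G (ZMod p) := by
  constructor
  · rintro ⟨Ω, _, _, x, ψ, hψ⟩
    exact hψ.occursRegularly
  · intro h
    obtain ⟨ψ, hψ⟩ := exists_rz h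
    exact hψ.hasRz

end MP7K
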