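import Pool.Agent.Lib.MP_7f581e_K.Defs2
import Pool.Agent.Lib.MP_7f581e_Z.Lie.All

/-!
# C33, Part V: regular realizations, steps, the Lang torsor theorem

`HasRz p G`: there is a homomorphism of finite level from the absolute Galois group of some
`𝔽_p(x)` which maps the geometric Galois group onto `G`.
-/

set_option autoImplicit false

namespace MP7K

open MP7Z TensorProduct MP7fS

/-- `G` has a regular realization over a rational function field `𝔽_p(x)`. -/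
def HasRz (p : ℕ) [Fact p.Prime] (G : Type) [Group G] : Prop :=
  ∃ (Ω : Type) (_ : Field Ω) (_ : Algebra (ZMod p) Ω) (x : Ω) (ψ : Gx p x →* G), Rz p x ψ

/-- The step for kernels which are powers of a group in the class `𝒮`. -/
def NStep (p : ℕ) [Fact p.Prime] (𝒮 : (S : Type) → [Group S] → Prop) : Prop :=
  ∀ (G : Type) [Group G] [Finite G], HasRz p G →
  ∀ (E : Type) [Group E] [Finite E] (f : E →* G), Function.Surjective f →
  ∀ (S : Type) [Group S] [Finite S] (κ : Type) [Finite κ], 𝒮 S → Nonempty (f.ker ≃* (κ → S)) →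
    HasRz p E

/-- The step for solvable kernels. -/
def SolvRz (p : ℕ) [Fact p.Prime] : Prop :=
  ∀ (G : Type) [Group G] [Finite G], HasRz p G →
  ∀ (E : Type) [Group E] [Finite E] (f : E →* G), Function.Surjective f →
    Group.IsSolvable f.ker → HasRz p E

section

variable {p : ℕ} [Fact p.Prime] {Ω : Type} [Field Ω] [Algebra (ZMod p) Ω] {x : Ω}

theorem Rz.surjective {G : Type} [Group G] {ψ : Gx p x →* G} (h : Rz p x ψ) :
    Function.Surjective ψ := by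
  intro q
  obtain ⟨γ, _, h⟩ := h.reg q
  exact ⟨γ, h⟩

/-- Realizations pass to quotients. -/
theorem Rz.map {G H : Type} [Group G] [Group H] {ψ : Gx p x →* G} (h : Rz p x ψ)
    (f : G →* H) (hf : Function.Surjective f) : Rz p x (f.comp ψ) where
  stage := h.stage
  fin := by
    obtain ⟨S, hS⟩ := h.fin
    refine ⟨S, fun γ hγ => ?_⟩
    rw [MonoidHom.comp_apply, hS γ hγ, map_one]
  reg := by
    intro g
    obtain ⟨g, rfl⟩ := hf g
    obtain ⟨γ, h1, h2⟩ := h.reg g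
    exact ⟨γ, h1, by rw [MonoidHom.comp_apply, h2]⟩

theorem Rz.hasRz {G : Type} [Group G] {ψ : Gx p x →* G} (h : Rz p x ψ) : HasRz p G :=
  ⟨Ω, _, _, x, ψ, h⟩

end

theorem HasRz.map {p : ℕ} [Fact p.Prime] {G H : Type} [Group G] [Group H] (h : HasRz p G)
    (f : G →* H) (hf : Function.Surjective f) : HasRz p H := by
  obtain ⟨Ω, _, _, x, ψ, hψ⟩ := h
  exact (hψ.map f hf).hasRz

/-- **The Lang torsor theorem** for regular realizations. -/
def L3R : Prop :=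
  ∀ (p : ℕ) [Fact p.Prime] (B : Type) [Ring B] [Finite B] [Algebra (ZMod p) B]
    (𝒢 : LangGp p B) (Q : Type) [Group Q] [Fintype Q] (ρ : Q →* (B ≃+* B))
    (hρ : 𝒢.Stable ρ) (m₀ : ℕ) (ι : Type) (Z : ι → Submodule (ZMod p) B), 0 < m₀ →
    𝒢.Lang1 → 𝒢.LangM m₀ → 𝒢.Gen m₀ Z → (∀ i, ∀ q : Q, ∀ b ∈ Z i, ρ q b ∈ Z i) →
    (∀ i, 𝒢.Par ρ (Z i)) → commutator 𝒢.pts = ⊤ →
    ∀ (Ω : Type) [Field Ω] [Algebra (ZMod p) Ω] (x : Ω) (ψ : Gx p x →* Q), Rz p x ψ →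
      ∃ Ψ : Gx p x →* 𝒢.pts ⋊[𝒢.act ρ hρ] Q, Rz p x Ψ ∧ ∀ γ, (Ψ γ).right = ψ γ

theorem tL3R (hInt : IntStmt) (hGel : GelStmt) (hTor : TorStmt)
    (hTorO : TorOStmt) : L3R := by
  intro p _ B _ _ _ 𝒢 Q _ _ ρ hρ m₀ ι Z hm₀ hL1 hLM hGen hZ hPar hperf Ω _ _ x ψ hψ
  haveI : CharP Ω p := charP_of_injective_algebraMap (algebraMap (ZMod p) Ω).injective p
  haveI : CharP (Cst p Ω) p :=
    charP_of_injective_algebraMap (algebraMap (ZMod p) (Cst p Ω)).injective p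
  haveI : IsSepClosed Ω := hψ.stage.sepClosed
  have hsurj : Function.Surjective ψ := hψ.surjective
  obtain ⟨g, hgH, hinv, hgi, hgi', hpl⟩ := hGel p B 𝒢 Q ρ m₀ ι Z hm₀ hLM hGen hZ hPar Ω x
    hψ.stage ψ hψ.fin hsurj
  obtain ⟨y, hyH, hy⟩ := hL1 Ω g hgH
  obtain ⟨hyi, hyi'⟩ := (hInt p B Ω x).2.2.2.2.2 g y hgi hgi' hy
  obtain ⟨Ψ, hΨf, hΨr, hΨy⟩ := hTor p B 𝒢 Q ρ hρ Ω x ψ g y hψ.fin hinv hyH hy
  refine ⟨Ψ, ⟨hψ.stage, hΨf, ?_⟩, hΨr⟩
  exact hTorO p B 𝒢 Q ρ hρ Ω x ψ g y Ψ hψ.stage hψ.reg hperf hyH hyi hyi' hy hΨr hΨy hpl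

theorem lie_l3R : L3R :=
  tL3R lie_int lie_gel tTor (tTorO lie_cong (tCongU lie_cong) lie_int (tClo br_res))

end MP7K
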