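import Pool.Agent.Lib.MP_7f581e_K.V.Mono
import Pool.Agent.Lib.MP_7f581e_K.P2.Main
import Pool.Agent.Lib.MP_7f581e_K.L.Main
import Pool.Agent.Lib.MP_7f581e_K.G5.AllV

/-!
# C33: the closure theorem
-/

set_option autoImplicit false

universe u

namespace MP7K

open MP7Z MP7fR MP7fC MP7fE

theorem isKernelFactor_simple {p : ℕ} [Fact p.Prime] (S : Type) [Group S]
    (h : IsKernelFactor p S) : IsSimpleGroup S := by
  rcases h with h | ⟨n, h5, -, ⟨e⟩⟩ | h | h | h | h
  · have : Fact (Nat.card S).Prime := ⟨h⟩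
    exact isSimpleGroup_of_prime_card rfl
  · have h7 : IsSimpleGroup (alternatingGroup (Fin n)) :=
      alternatingGroup.isSimpleGroup (by rwa [Nat.card_fin])
    exact MulEquiv.isSimpleGroup e
  · exact h.1
  · exact h.1
  · exact h.1
  · exact h.isSimpleGroup

theorem isKernelFactor_congr {p : ℕ} [Fact p.Prime] (S T : Type) [Group S] [Group T] (e : S ≃* T)
    (h : IsKernelFactor p S) : IsKernelFactor p T := by
  rcases h with h | ⟨n, h5, h6, ⟨f⟩⟩ | h | h | h | h
  · left
    rw [← Nat.card_congr e.toEquiv]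
    exact h
  · exact Or.inr (Or.inl ⟨n, h5, h6, ⟨e.symm.trans f⟩⟩)
  · exact Or.inr (Or.inr (Or.inl (h.congr e)))
  · exact Or.inr (Or.inr (Or.inr (Or.inl (h.congr e))))
  · exact Or.inr (Or.inr (Or.inr (Or.inr (Or.inl (h.congr e)))))
  · exact Or.inr (Or.inr (Or.inr (Or.inr (Or.inr (h.congr e)))))

/-- **The closure theorem.** -/
theorem closureG (p : ℕ) [Fact p.Prime] (G : Type) [Group G] [Finite G]
    (N : Subgroup G) [N.Normal] (hN : HasFactors (fun S [Group S] => IsKernelFactor p S) N)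
    (h : OccursRegularly (G ⧸ N) (ZMod p)) :
    Occurs G (RatFunc (ZMod p)) ∧ (∀ (K : Type u) [Field K] [CharP K p], OccursRegularly G K) ∧
      ∀ (K : Type u) [Field K] [CharP K p], IsHilbertian K → Occurs G K :=
  closure_final k2StartW weakW p (rStep_ga (solvRz_of k2StartW weakW p)) G N hN h

end MP7K
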