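import Pool.Agent.Lib.MP_7f581e_K.V.Defs
import Pool.Agent.Lib.MP_7f581e_Z.Lie.L1

/-!
# C33, Part V: step Lie for regular realizations
-/

set_option autoImplicit false

namespace MP7K

open MP7Z MP7fW MP7fY

section

variable {p : ℕ} [Fact p.Prime] {H B A : Type} [Group H] [Ring B] [Finite B]
  [Algebra (ZMod p) B] [Group A] {inc : H →* B} {hinj : Function.Injective inc}
  {r : A →* RingAut B} {hex : ∀ x h, ∃ h', inc h' = r x (inc h)} {D : Subgroup A}

/-- **Step Lie from a type**, for regular realizations. -/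
theorem reg_of_type (hL3 : L3R) (hS : SolvRz p) (hT : TypeD inc hinj r hex D)
    (hG : LangOf p inc r D) :
    NStep p (fun S [Group S] => Nonempty (S ≃* H ⧸ Subgroup.center H)) := by
  intro G _ _ hG0 E _ _ f hf S _ _ κ _ hSS hθ₀
  obtain ⟨eS⟩ := hSS
  obtain ⟨θ₀⟩ := hθ₀
  have hsim := hT.simple
  have hnt : Nontrivial (H ⧸ Subgroup.center H) := hsim.toNontrivial
  let θ : f.ker ≃* (κ → H ⧸ Subgroup.center H) := θ₀.trans (MulEquiv.piCongrRight fun _ => eS)
  let c := cQ inc hinj r hex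
  have hexQ : ∀ e : E, ∃ (π : Equiv.Perm κ) (x : κ → A), Wr c (Psi f.ker θ e) π x :=
    fun e => exists_wrS hT.sur hT.cent (Psi f.ker θ e)
  have huni : ∀ x y : A, (∀ t, c x t = c y t) → x = y := cQ_injective hT.fix
  -- the subgroup of the standard elements
  let E₂ : Subgroup E :=
    { carrier := {e | ∃ (π : Equiv.Perm κ) (x : κ → A), Wr c (Psi f.ker θ e) π x ∧
        ∀ k, x k ∈ D}
      one_mem' := ⟨1, fun _ => 1, by
        rw [map_one]
        exact Wr.one, fun _ => D.one_mem⟩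
      mul_mem' := by
        rintro e e' ⟨π, x, h, hx⟩ ⟨π', x', h', hx'⟩
        refine ⟨π * π', fun k => x (π' k) * x' k, ?_, fun k => D.mul_mem (hx _) (hx' _)⟩
        rw [map_mul]
        exact h.mul h'
      inv_mem' := by
        rintro e ⟨π, x, h, hx⟩
        refine ⟨π⁻¹, fun k => (x (π⁻¹ k))⁻¹, ?_, fun k => D.inv_mem (hx _)⟩
        rw [map_inv]
        exact h.inv }
  have hE₂ : ∀ e, e ∈ E₂ ↔ ∃ (π : Equiv.Perm κ) (x : κ → A), Wr c (Psi f.ker θ e) π x ∧
      ∀ k, x k ∈ D := fun e => Iff.rfl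
  have hsup : ∀ e : E, ∃ y, nn f.ker θ y * e ∈ E₂ := by
    intro e
    obtain ⟨π, x, h⟩ := hexQ e
    choose s y hyD hy using fun k => hT.std (x k)
    refine ⟨fun i => s (π.symm i), π, y, ?_, hyD⟩
    intro z k
    rw [map_mul, MulAut.mul_apply, Psi_nn]
    change s (π.symm (π k)) * Psi f.ker θ e z (π k) * (s (π.symm (π k)))⁻¹ = _
    rw [h, Equiv.symm_apply_apply, ← hy]
  -- the kernel is solvable
  let f₂ : E₂ →* G := f.comp E₂.subtype
  have hf₂ : Function.Surjective f₂ := by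
    intro g
    obtain ⟨e, rfl⟩ := hf g
    obtain ⟨y, hy⟩ := hsup e
    refine ⟨⟨_, hy⟩, ?_⟩
    change f (nn f.ker θ y * e) = f e
    have h1 : f (nn f.ker θ y) = 1 := MonoidHom.mem_ker.1 (nn_mem f.ker θ y)
    rw [map_mul, h1, one_mul]
  have hsolv : Group.IsSolvable f₂.ker := by
    obtain ⟨T, hTs, hT'⟩ := hT.solv
    have hmem : ∀ e : f₂.ker, ((e : E₂) : E) ∈ f.ker := fun e => MonoidHom.mem_ker.1 e.2
    have key : ∀ (e : f₂.ker) (k : κ), θ ⟨((e : E₂) : E), hmem e⟩ k ∈ T := by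
      intro e k
      obtain ⟨π, x, h, hx⟩ := (hE₂ _).1 (e : E₂).2
      obtain ⟨s, hs⟩ := nn_surj f.ker θ (hmem e)
      have hse : θ ⟨((e : E₂) : E), hmem e⟩ = s := by
        apply nn_inj f.ker θ
        rw [hs]
        change ((θ.symm (θ ⟨((e : E₂) : E), hmem e⟩) : f.ker) : E) = _
        rw [MulEquiv.symm_apply_apply]
      rw [hse]
      rw [← hs] at h
      classical
      have h1 : ∀ (z : κ → H ⧸ Subgroup.center H) (k : κ),
          s (π k) * z (π k) * (s (π k))⁻¹ = c (x k) (z k) := by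
        intro z k
        have h2 := h z k
        rw [Psi_nn] at h2
        exact h2
      have hπ : ∀ k, π k = k := by
        intro k
        by_contra hne
        obtain ⟨t, ht⟩ := exists_ne (1 : H ⧸ Subgroup.center H)
        have h2 := h1 (Pi.mulSingle (π k) t) k
        rw [Pi.mulSingle_eq_same, Pi.mulSingle_eq_of_ne (Ne.symm hne), map_one] at h2
        apply ht
        rw [mul_inv_eq_one] at h2
        exact mul_eq_left.mp h2
      refine hT' _ ⟨x k, hx k, ?_⟩
      intro t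
      have h3 := h1 (fun _ => t) k
      rw [hπ k] at h3
      exact h3.symm
    let φ : κ → (f₂.ker →* T) := fun k =>
      { toFun := fun e => ⟨θ ⟨((e : E₂) : E), hmem e⟩ k, key e k⟩
        map_one' := by
          apply Subtype.ext
          change θ ⟨(((1 : f₂.ker) : E₂) : E), hmem 1⟩ k = 1
          have h1 : (⟨(((1 : f₂.ker) : E₂) : E), hmem 1⟩ : f.ker) = 1 := rfl
          rw [h1, map_one]
          rfl
        map_mul' := by
          intro a b
          apply Subtype.ext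
          change θ ⟨(((a * b : f₂.ker) : E₂) : E), hmem (a * b)⟩ k = _
          have h1 : (⟨(((a * b : f₂.ker) : E₂) : E), hmem (a * b)⟩ : f.ker) =
            ⟨((a : E₂) : E), hmem a⟩ * ⟨((b : E₂) : E), hmem b⟩ := rfl
          rw [h1, map_mul]
          rfl }
    refine solvable_of_homs hTs φ ?_
    intro e he
    have h1 : θ ⟨((e : E₂) : E), hmem e⟩ = 1 := by
      funext k
      exact congrArg Subtype.val (he k)
    have h2 : (⟨((e : E₂) : E), hmem e⟩ : f.ker) = 1 := by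
      apply θ.injective
      rw [h1, map_one]
    have h3 : ((e : E₂) : E) = 1 := congrArg (fun z : f.ker => (z : E)) h2
    exact Subtype.ext (Subtype.ext h3)
  -- the solution for the standard subgroup
  obtain ⟨Ω, _, _, x', ψ₂, hψ₂⟩ := hS G hG0 E₂ f₂ hf₂ hsolv
  -- the action
  obtain ⟨𝒢, hpts, hL1, hQ⟩ := hG κ
  let ρ : E₂ →* ((κ → B) ≃+* (κ → B)) :=
    (rhoQ (c := c) (Ψ := Psi f.ker θ) hexQ huni r).comp E₂.subtype
  have hform : ∀ (e : E₂) (b : κ → B) (k : κ),
      ρ e b (pQ hexQ (e : E) k) = r (xQ hexQ (e : E) k) (b k) :=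
    fun e b k => rhoQ_apply hexQ huni r (e : E) b k
  have hxD : ∀ (e : E₂) (k : κ), xQ hexQ (e : E) k ∈ D := by
    intro e k
    obtain ⟨π, x, h, hx⟩ := (hE₂ _).1 e.2
    have h1 := (wr_unique huni (wrQ hexQ (e : E)) h).2
    rw [h1]
    exact hx k
  have : Fintype E₂ := Fintype.ofFinite E₂
  obtain ⟨hst, m₀, ι, Z, hm₀, hLM, hGen, hZ, hPar⟩ := hQ E₂ ρ fun e =>
    ⟨pQ hexQ (e : E), xQ hexQ (e : E), hxD e, hform e⟩
  obtain ⟨eb, heb⟩ := exists_hb hinj hpts
  have hperf : commutator 𝒢.pts = ⊤ := by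
    have h1 : commutator (κ → H) = ⊤ := perfect_pi hT.perf
    rw [eq_top_iff]
    intro b _
    have h2 : eb b ∈ commutator (κ → H) := by
      rw [h1]
      exact Subgroup.mem_top _
    have h3 : (commutator (κ → H)).map eb.symm.toMonoidHom ≤ commutator 𝒢.pts := by
      rw [commutator_def, commutator_def, Subgroup.map_commutator]
      exact Subgroup.commutator_mono le_top le_top
    have h4 := h3 ⟨eb b, h2, rfl⟩
    have h5 : eb.symm.toMonoidHom (eb b) = b := eb.symm_apply_apply b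
    rw [h5] at h4
    exact h4
  obtain ⟨Ψ₃, hΨ₃, -⟩ := hL3 p (κ → B) 𝒢 E₂ ρ hst m₀ ι Z hm₀ hL1 hLM hGen hZ hPar hperf Ω x' ψ₂ hψ₂
  -- the homomorphism onto `E`
  let f₁ : 𝒢.pts →* E := (nn f.ker θ).comp ((mkk κ H).comp eb.toMonoidHom)
  have hact : ∀ (e : E₂) (b : 𝒢.pts), f₁ (𝒢.act ρ hst e b) = (e : E) * f₁ b * (e : E)⁻¹ := by
    intro e b
    change nn f.ker θ (mkk κ H (eb (𝒢.act ρ hst e b))) =
      (e : E) * nn f.ker θ (mkk κ H (eb b)) * (e : E)⁻¹
    rw [← nn_psi]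
    congr 1
    funext i
    obtain ⟨k, rfl⟩ := (pQ hexQ (e : E)).surjective i
    rw [wrQ hexQ (e : E) (mkk κ H (eb b)) k]
    symm
    apply cQ_mk'
    rw [heb, heb]
    exact hform e ((b : (κ → B)ˣ) : κ → B) k
  let F : 𝒢.pts ⋊[𝒢.act ρ hst] E₂ →* E := SemidirectProduct.lift f₁ E₂.subtype (by
    intro e
    ext b
    exact hact e b)
  have hF : Function.Surjective F := by
    intro e
    obtain ⟨y, hy⟩ := hsup e
    obtain ⟨h, hh⟩ := mkk_surj κ H y⁻¹
    refine ⟨⟨eb.symm h, ⟨_, hy⟩⟩, ?_⟩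
    change nn f.ker θ (mkk κ H (eb (eb.symm h))) * (nn f.ker θ y * e) = e
    rw [MulEquiv.apply_symm_apply, hh, map_inv, inv_mul_cancel_left]
  exact (hΨ₃.map F hF).hasRz

end

end MP7K
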