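import Pool.Agent.Lib.MP_7f581e_ntR.Main
import Pool.Agent.Lib.MP_7f581e_ntE.General

/-!
# C33: reduction of the inverse Galois problem to groups without radical
-/

set_option autoImplicit false

universe u

namespace MP7K

open MP7fR MP7fC MP7fE

/-- The group `G` has no normal subgroup, except the trivial one, which has a subnormal series
with factors in the class `𝒮`. -/
def RadicalFree (𝒮 : GroupClass) (G : Type) [Group G] : Prop :=
  ∀ N : Subgroup G, N.Normal → HasFactors 𝒮 N → N = ⊥

section

variable {𝒮 : GroupClass}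
  (hiso : ∀ (S T : Type) [Group S] [Group T], (S ≃* T) → 𝒮 S → 𝒮 T)
  (hsim : ∀ (S : Type) [Group S], 𝒮 S → IsSimpleGroup S)

include hiso hsim

/-- Every finite group has a normal subgroup with factors in the class, such that the quotient is
without radical. -/
theorem exists_radical (G : Type) [Group G] [Finite G] :
    ∃ (N : Subgroup G) (_ : N.Normal), HasFactors 𝒮 N ∧ RadicalFree 𝒮 (G ⧸ N) := by
  obtain ⟨N, hN⟩ := (Set.toFinite {N : Subgroup G | N.Normal ∧ HasFactors 𝒮 N}).exists_maximal
    ⟨⊥, inferInstance, .triv _⟩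
  have hNn : N.Normal := hN.prop.1
  refine ⟨N, hNn, hN.prop.2, ?_⟩
  intro M hM hMF
  have h1 : (M.comap (QuotientGroup.mk' N)).Normal := hM.comap _
  have h2 : HasFactors 𝒮 (M.comap (QuotientGroup.mk' N)) := by
    let f : M.comap (QuotientGroup.mk' N) →* M := (QuotientGroup.mk' N).subgroupComap M
    have hf : Function.Surjective f := by
      rintro ⟨y, hy⟩
      obtain ⟨x, rfl⟩ := QuotientGroup.mk'_surjective N y
      exact ⟨⟨x, hy⟩, rfl⟩
    refine hMF.extension hiso hsim _ f hf ?_
    have hNM : N ≤ M.comap (QuotientGroup.mk' N) := by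
      intro x hx
      rw [Subgroup.mem_comap, QuotientGroup.mk'_apply, (QuotientGroup.eq_one_iff x).2 hx]
      exact one_mem M
    let t : N →* f.ker :=
      { toFun := fun x => ⟨⟨x, hNM x.2⟩, by
          rw [MonoidHom.mem_ker]
          exact Subtype.ext ((QuotientGroup.eq_one_iff (x : G)).2 x.2)⟩
        map_one' := rfl
        map_mul' := fun _ _ => rfl }
    refine hN.prop.2.of_surjective hiso hsim _ t ?_
    rintro ⟨⟨x, hx⟩, hx'⟩
    have h3 : x ∈ N := (QuotientGroup.eq_one_iff x).1 (congrArg Subtype.val hx')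
    exact ⟨⟨x, h3⟩, rfl⟩
  have h3 : N ≤ M.comap (QuotientGroup.mk' N) := by
    intro x hx
    rw [Subgroup.mem_comap, QuotientGroup.mk'_apply, (QuotientGroup.eq_one_iff x).2 hx]
    exact one_mem M
  have h4 : M.comap (QuotientGroup.mk' N) ≤ N := hN.le_of_ge ⟨h1, h2⟩ h3
  rw [eq_bot_iff]
  intro x hx
  obtain ⟨g, rfl⟩ := QuotientGroup.mk'_surjective N x
  rw [Subgroup.mem_bot]
  exact (QuotientGroup.eq_one_iff g).2 (h4 hx)

/-- Powers of groups without radical are without radical. -/
theorem RadicalFree.pow {H : Type} [Group H] (h : RadicalFree 𝒮 H) (n : ℕ) :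
    RadicalFree 𝒮 (Fin n → H) := by
  intro M hM hMF
  rw [eq_bot_iff]
  intro x hx
  rw [Subgroup.mem_bot]
  funext i
  let π : (Fin n → H) →* H := Pi.evalMonoidHom (fun _ => H) i
  have hπ : Function.Surjective π := fun y => ⟨fun _ => y, rfl⟩
  have h1 : (M.map π).Normal := hM.map π hπ
  have h2 : HasFactors 𝒮 (M.map π) :=
    hMF.of_surjective hiso hsim _ (π.subgroupMap M) (π.subgroupMap_surjective M)
  have h3 : x i ∈ M.map π := ⟨x, hx, rfl⟩
  rw [h _ h1 h2] at h3
  exact Subgroup.mem_bot.1 h3

/-- **Reduction**: if regular occurrence is closed under extensions by groups with factors in the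
class, and all finite groups without radical occur over `𝔽_p(X)`, then all finite groups occur
regularly. -/
theorem reduction {p : ℕ} [Fact p.Prime]
    (hcl : ∀ (G : Type) [Group G] [Finite G] (N : Subgroup G) [N.Normal], HasFactors 𝒮 N →
      OccursRegularly (G ⧸ N) (ZMod p) → OccursRegularly G (ZMod p))
    (h : ∀ (G : Type) [Group G] [Finite G], RadicalFree 𝒮 G → Occurs G (RatFunc (ZMod p)))
    (G : Type) [Group G] [Finite G] : OccursRegularly G (ZMod p) := by
  obtain ⟨N, hN, h1, h2⟩ := exists_radical hiso hsim G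
  refine hcl G N h1 ?_
  exact occursRegularly_of_pow
    (Nat.lt_succ_self (Nat.card (Abelianization (G ⧸ N))).primeFactors.card)
    (h _ (h2.pow hiso hsim _))

end

end MP7K
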