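import Pool.Agent.Lib.MP_7f581e_ntR.Main

/-!
# C33: occurrence over `𝔽_p(X)` does not depend on the universe
-/

set_option autoImplicit false

universe u

namespace MP7K

open MP7fR

/-- If `G` occurs over a countable field in any universe, then it occurs over every isomorphic
field in the lowest universe. -/
theorem occurs_down {G : Type} [Group G] {F : Type u} [Field F] [Countable F] {F₀ : Type} [Field F₀]
    (e : F₀ ≃+* F) (h : Occurs G F) : Occurs G F₀ := by
  obtain ⟨L, _, _, hfd, hgal, ⟨φ⟩⟩ := h
  have hc : Countable L := by
    let b := Module.finBasis F L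
    exact b.equivFun.injective.countable
  have hs : Small.{0} L := Countable.toSmall L
  let L' : Type := Shrink.{0} L
  let r : L' ≃+* L := Shrink.ringEquiv L
  let _ : Algebra F₀ L' := (r.symm.toRingHom.comp ((algebraMap F L).comp e.toRingHom)).toAlgebra
  have hcomm : (algebraMap F L).comp (e : F₀ →+* F) = (r : L' →+* L).comp (algebraMap F₀ L') := by
    ext x
    show algebraMap F L (e x) = r (r.symm (algebraMap F L (e x)))
    rw [RingEquiv.apply_symm_apply]
  have hcomm' : ∀ x, r (algebraMap F₀ L' x) = algebraMap F L (e x) := fun x =>
    (RingHom.congr_fun hcomm x).symm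
  refine ⟨L', inferInstance, inferInstance, ?_, ?_, ⟨?_⟩⟩
  · refine Module.Finite.of_equiv_equiv (A₁ := F) (B₁ := L) e.symm r.symm ?_
    refine RingHom.ext fun x => r.injective ?_
    show r (algebraMap F₀ L' (e.symm x)) = r (r.symm (algebraMap F L x))
    rw [hcomm', RingEquiv.apply_symm_apply, RingEquiv.apply_symm_apply]
  · refine IsGalois.of_equiv_equiv (F := F) (E := L) (f := e.symm) (g := r.symm) ?_
    refine RingHom.ext fun x => r.injective ?_
    show r (algebraMap F₀ L' (e.symm x)) = r (r.symm (algebraMap F L x))
    rw [hcomm', RingEquiv.apply_symm_apply, RingEquiv.apply_symm_apply]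
  · refine MulEquiv.trans ?_ φ
    exact
      { toFun := fun σ =>
          { toRingEquiv := (r.symm.trans σ.toRingEquiv).trans r
            commutes' := fun x => by
              obtain ⟨y, rfl⟩ := e.surjective x
              show r (σ (r.symm (algebraMap F L (e y)))) = _
              rw [← hcomm', RingEquiv.symm_apply_apply, AlgEquiv.commutes] }
        invFun := fun σ =>
          { toRingEquiv := (r.trans σ.toRingEquiv).trans r.symm
            commutes' := fun y => by
              show r.symm (σ (r (algebraMap F₀ L' y))) = _
              rw [hcomm', AlgEquiv.commutes, ← hcomm', RingEquiv.symm_apply_apply] }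
        left_inv := fun σ => by
          refine AlgEquiv.ext fun y => ?_
          show r.symm (r (σ (r.symm (r y)))) = σ y
          rw [RingEquiv.symm_apply_apply, RingEquiv.symm_apply_apply]
        right_inv := fun σ => by
          ext y
          show r (r.symm (σ (r (r.symm y)))) = σ y
          rw [RingEquiv.apply_symm_apply, RingEquiv.apply_symm_apply]
        map_mul' := fun σ τ => by
          ext y
          show r (σ (τ (r.symm y))) = r (σ (r.symm (r (τ (r.symm y)))))
          rw [RingEquiv.symm_apply_apply] }

/-- Regular occurrence over a copy of `𝔽_p` in any universe gives occurrence over `𝔽_p(X)`. -/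
theorem occurs_of_ulift {p : ℕ} [Fact p.Prime] {G : Type} [Group G] [Finite G]
    (h : OccursRegularly G (ULift.{u} (ZMod p))) : Occurs G (RatFunc (ZMod p)) := by
  have h1 : Occurs G (RatFunc (ULift.{u} (ZMod p))) := h.occurs
  have h2 : Countable (RatFunc (ULift.{u} (ZMod p))) := by
    have h3 : Countable (Polynomial (ULift.{u} (ZMod p))) := by
      rw [← Cardinal.mk_le_aleph0_iff]
      exact Polynomial.cardinalMk_le_max.trans (max_le Cardinal.mk_le_aleph0 le_rfl)
    have h4 : Function.Surjective fun q : Polynomial (ULift.{u} (ZMod p)) ×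
        Polynomial (ULift.{u} (ZMod p)) =>
        algebraMap _ (RatFunc (ULift.{u} (ZMod p))) q.1 / algebraMap _ _ q.2 := by
      intro z
      obtain ⟨a, b, -, rfl⟩ := IsFractionRing.div_surjective (A := Polynomial (ULift.{u} (ZMod p))) z
      exact ⟨(a, b), rfl⟩
    exact h4.countable
  exact occurs_down (IsFractionRing.ringEquivOfRingEquiv (K := RatFunc (ZMod p))
    (L := RatFunc (ULift.{u} (ZMod p)))
    (Polynomial.mapEquiv (ULift.ringEquiv.symm : ZMod p ≃+* ULift.{u} (ZMod p)))) h1

end MP7K
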